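import Mathlib

/-!
Rigid homomorphisms and tau-rigid modules: definitions in plain form.
-/

universe u v

namespace Pool.Agent.H4.TS

variable (A : Type u) [Ring A] {P Q M : Type u} [AddCommGroup P] [Module A P] [AddCommGroup Q]
  [Module A Q] [AddCommGroup M] [Module A M]

/-- every homomorphism `P → Q` is `f s + t f` with endomorphisms `s` of `P` and `t` of `Q` -/
def Rigid (f : P → Q) : Prop :=
  ∀ h : P → Q, IsLinearMap A h → ∃ (s : P → P) (t : Q → Q), IsLinearMap A s ∧ IsLinearMap A t ∧
    ∀ x, h x = f (s x) + t (f x)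

variable (P) in
/-- `P` is finitely generated projective -/
def Proj : Prop := Module.Finite A P ∧ Module.Projective A P

variable (P Q) in
/-- `P` and `Q` are isomorphic -/
def Iso : Prop := ∃ f : P → Q, IsLinearMap A f ∧ Function.Bijective f

variable (M) in
/-- `M` is not zero and its only idempotent endomorphisms are `0` and `1` -/
def Indecomposable : Prop :=
  (∃ x : M, x ≠ 0) ∧ ∀ e : M → M, IsLinearMap A e → (∀ x, e (e x) = e x) →
    (∀ x, e x = 0) ∨ ∀ x, e x = x

/-- no proper submodule of `P` has the same image as `P` (the kernel of `f` is superfluous) -/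
def Minimal (f : P → Q) : Prop := ∀ N : Submodule A P, (∀ x, ∃ y ∈ N, f y = f x) → N = ⊤

/-- `P → Q → M → 0` is a minimal projective presentation -/
def IsPresentation (f : P → Q) (g : Q → M) : Prop :=
  Proj A P ∧ Proj A Q ∧ IsLinearMap A f ∧ IsLinearMap A g ∧ (∀ m, ∃ y, g y = m) ∧
    (∀ y, g y = 0 ↔ ∃ x, f x = y) ∧ Minimal A f ∧ Minimal A g

variable (K : Type v) [Field K] [Algebra K A]

/-- `B` is bilinear on `M × Hom(P, A)` and `B (a m, φ) = B (m, φ a)` -/
def Balanced (B : M → (P → A) → K) : Prop :=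
  (∀ m n φ, IsLinearMap A φ → B (m + n) φ = B m φ + B n φ) ∧
    (∀ m φ ψ, IsLinearMap A φ → IsLinearMap A ψ → B m (fun x => φ x + ψ x) = B m φ + B m ψ) ∧
    (∀ (c : K) m φ, IsLinearMap A φ → B m (fun x => c • φ x) = c * B m φ) ∧
    ∀ (a : A) m φ, IsLinearMap A φ → B (a • m) φ = B m fun x => φ x * a

variable (M) in
/-- `Hom(M, τ M) = 0`, `τ M = D (Coker (Hom(Q, A) → Hom(P, A)))` for a minimal projective
presentation `P → Q → M → 0` -/
def IsTauRigid : Prop :=
  ∃ (P Q : Type u) (_ : AddCommGroup P) (_ : Module A P) (_ : AddCommGroup Q) (_ : Module A Q)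
    (f : P → Q) (g : Q → M), IsPresentation A f g ∧
    ∀ B : M → (P → A) → K, Balanced A K B →
      (∀ m ψ, IsLinearMap A ψ → B m (fun x => ψ (f x)) = 0) → ∀ m φ, IsLinearMap A φ → B m φ = 0

end Pool.Agent.H4.TS
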