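import Pool.Agent.H51.T2.Main

/-! The tau-reduced second Brauer-Thrall conjecture (in terms of g-vectors) for algebras with at
most two simple modules. -/

set_option linter.style.haveILetI false
set_option linter.unusedSectionVars false

universe u v

namespace Pool.Agent.H4.TS.Old

open Module Pool.Agent.H51.T2

/-- A homomorphism `f : P → Q` of modules, seen as a two-term complex, is rigid if
`Hom(f, f[1]) = 0` in the homotopy category, that is, if every homomorphism `P → Q` has the form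
`f s + t f` with endomorphisms `s` of `P` and `t` of `Q`. -/
def RigidMap {A : Type u} [Ring A] {P Q : Type u} [AddCommGroup P] [Module A P]
    [AddCommGroup Q] [Module A Q] (f : P →ₗ[A] Q) : Prop :=
  ∀ h : P →ₗ[A] Q, ∃ (s : P →ₗ[A] P) (t : Q →ₗ[A] Q), h = f ∘ₗ s + t ∘ₗ f

/-- `M` is indecomposable: nonzero, and not the direct sum of two nonzero submodules. -/
def Indecomposable (A : Type u) [Ring A] (M : Type u) [AddCommGroup M] [Module A M] : Prop :=
  Nontrivial M ∧ ∀ N N' : Submodule A M, IsCompl N N' → N = ⊥ ∨ N' = ⊥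

/-- `Hom_A(M, τM) = 0`, where `P₁ → P₀ → M → 0` is a minimal projective presentation with finitely
generated projectives and `τM = D Tr M`: a homomorphism from `M` to
`τM = D (Coker (Hom_A(P₀, A) → Hom_A(P₁, A)))` is the same as a bilinear pairing `B` of `M` with
`Hom_A(P₁, A)` such that `B (a m, φ) = B (m, φ a)` and such that `B (m, ψ f) = 0` for all `ψ` in
`Hom_A(P₀, A)`. -/
def IsTauRigid (K : Type v) [Field K] (A : Type u) [Ring A] [Algebra K A] (M : Type u)
    [AddCommGroup M] [Module K M] [Module A M] [IsScalarTower K A M] : Prop :=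
  ∃ (P₁ P₀ : Type u) (_ : AddCommGroup P₁) (_ : Module A P₁) (_ : AddCommGroup P₀)
    (_ : Module A P₀) (f : P₁ →ₗ[A] P₀) (π : P₀ →ₗ[A] M),
    Module.Finite A P₁ ∧ Module.Finite A P₀ ∧ Module.Projective A P₁ ∧ Module.Projective A P₀ ∧
    Function.Surjective π ∧ LinearMap.range f = LinearMap.ker π ∧
    (∀ N : Submodule A P₀, N ⊔ LinearMap.ker π = ⊤ → N = ⊤) ∧
    (∀ N : Submodule A P₁, N ⊔ LinearMap.ker f = ⊤ → N = ⊤) ∧
    ∀ B : M →ₗ[K] (P₁ →ₗ[A] A) →ₗ[K] K,
      (∀ (a : A) (m : M) (φ : P₁ →ₗ[A] A),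
        B (a • m) φ = B m (LinearMap.toSpanSingleton A A a ∘ₗ φ)) →
      (∀ (m : M) (ψ : P₀ →ₗ[A] A), B m (ψ ∘ₗ f) = 0) → B = 0

/-- The pairing condition gives surjectivity of `Hom(P₀, M) → Hom(P₁, M)`. -/
theorem surj_of_pairing {K : Type v} [Field K] {A : Type u} [Ring A] [Algebra K A] {M : Type u}
    [AddCommGroup M] [Module K M] [Module A M] [IsScalarTower K A M]
    {P₁ P₀ : Type u} [AddCommGroup P₁] [Module A P₁] [AddCommGroup P₀]
    [Module A P₀] {f : P₁ →ₗ[A] P₀} [Module.Finite A P₁] [Module.Projective A P₁]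
    (h : ∀ B : M →ₗ[K] (P₁ →ₗ[A] A) →ₗ[K] K,
      (∀ (a : A) (m : M) (φ : P₁ →ₗ[A] A),
        B (a • m) φ = B m (LinearMap.toSpanSingleton A A a ∘ₗ φ)) →
      (∀ (m : M) (ψ : P₀ →ₗ[A] A), B m (ψ ∘ₗ f) = 0) → B = 0) :
    ∀ k : P₁ →ₗ[A] M, ∃ l : P₀ →ₗ[A] M, k = l ∘ₗ f := by
  intro k
  -- the subspace of maps extending to `P₀`
  let W : Submodule K (P₁ →ₗ[A] M) :=
    { carrier := {k | ∃ l : P₀ →ₗ[A] M, k = l ∘ₗ f}
      add_mem' := by
        rintro _ _ ⟨l, rfl⟩ ⟨l', rfl⟩
        exact ⟨l + l', by ext; simp⟩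
      zero_mem' := ⟨0, by ext; simp⟩
      smul_mem' := by
        rintro c _ ⟨l, rfl⟩
        exact ⟨c • l, by ext; simp⟩ }
  show k ∈ W
  by_contra hk
  obtain ⟨Λ, hΛ, hΛW⟩ := Submodule.exists_le_ker_of_notMem hk
  let B : M →ₗ[K] (P₁ →ₗ[A] A) →ₗ[K] K :=
    LinearMap.mk₂ K (fun m φ => Λ (LinearMap.toSpanSingleton A M m ∘ₗ φ))
      (fun m m' φ => by
        rw [← map_add]; congr 1; ext x; simp)
      (fun c m φ => by
        rw [← map_smul]; congr 1; ext x
        simp only [LinearMap.comp_apply, LinearMap.toSpanSingleton_apply, LinearMap.smul_apply]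
        rw [smul_comm])
      (fun m φ φ' => by
        rw [← map_add]; congr 1; ext x; simp [add_smul])
      (fun c m φ => by
        rw [← map_smul]; congr 1; ext x; simp)
  have hB : B = 0 := by
    apply h B
    · intro a m φ
      show Λ _ = Λ _
      congr 1
      ext x
      simp [mul_smul]
    · intro m ψ
      show Λ _ = 0
      apply hΛW
      exact ⟨LinearMap.toSpanSingleton A M m ∘ₗ ψ, rfl⟩
  -- the maps `φ(·) m` span
  obtain ⟨n, ρ, hρ⟩ := Module.Finite.exists_fin' A P₁
  obtain ⟨s, hs⟩ := Module.projective_lifting_property ρ LinearMap.id hρ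
  apply hΛ
  have hk' : k = ∑ i : Fin n, LinearMap.toSpanSingleton A M (k (ρ (Pi.single i 1))) ∘ₗ
      (LinearMap.proj i ∘ₗ s) := by
    ext x
    have h1 : ρ (s x) = x := LinearMap.congr_fun hs x
    have h2 : s x = ∑ i : Fin n, (s x i) • (Pi.single i (1 : A) : Fin n → A) := by
      ext j
      simp [Finset.sum_apply, Pi.single_apply]
    have h3 : k x = ∑ i : Fin n, (s x i) • k (ρ (Pi.single i 1)) := by
      conv_lhs => rw [← h1, h2]
      simp [map_sum, map_smul]
    rw [h3]
    simp [LinearMap.sum_apply]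
  rw [hk', map_sum]
  refine Finset.sum_eq_zero fun i _ => ?_
  exact LinearMap.congr_fun (LinearMap.congr_fun hB (k (ρ (Pi.single i 1)))) (LinearMap.proj i ∘ₗ s)

/-- Let `A` be a finite-dimensional algebra over an infinite field with at most two simple modules
up to isomorphism. If `A` is τ-tilting infinite (no finite list of modules contains all
indecomposable τ-rigid modules up to isomorphism), then there are finitely generated projective
modules `P`, `Q` such that no homomorphism `P → Q` is rigid: the g-vector `[Q] - [P]` is not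
rigid. -/
theorem result (K : Type v) [Field K] [Infinite K] (A : Type u) [Ring A] [Algebra K A]
    [FiniteDimensional K A] (S₁ S₂ : Type u) [AddCommGroup S₁] [Module A S₁]
    [AddCommGroup S₂] [Module A S₂] [IsSimpleModule A S₁] [IsSimpleModule A S₂]
    (hS : ∀ (S : Type u) [AddCommGroup S] [Module A S] [IsSimpleModule A S],
      Nonempty (S ≃ₗ[A] S₁) ∨ Nonempty (S ≃ₗ[A] S₂))
    (hinf : ∀ L : List (ModuleCat.{u} A), ∃ (M : Type u) (_ : AddCommGroup M) (_ : Module K M)
      (_ : Module A M) (_ : IsScalarTower K A M), Indecomposable A M ∧ IsTauRigid K A M ∧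
        ∀ X ∈ L, ¬ Nonempty (M ≃ₗ[A] X)) :
    ∃ (P Q : Type u) (_ : AddCommGroup P) (_ : Module A P) (_ : AddCommGroup Q)
      (_ : Module A Q), Module.Finite A P ∧ Module.Projective A P ∧ Module.Finite A Q ∧
        Module.Projective A Q ∧ ∀ f : P →ₗ[A] Q, ¬ RigidMap f := by
  by_contra hne
  have hyp : ∀ (P Q : Type u) [AddCommGroup P] [Module A P] [AddCommGroup Q] [Module A Q]
      [Module.Finite A P] [Module.Finite A Q] [Module.Projective A P] [Module.Projective A Q],
      ∃ f : P →ₗ[A] Q, Rigid f := by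
    intro P Q _ _ _ _ _ _ _ _
    by_contra h
    apply hne
    refine ⟨P, Q, inferInstance, inferInstance, inferInstance, inferInstance, inferInstance,
      inferInstance, inferInstance, inferInstance, fun f hf => h ⟨f, fun g => ?_⟩⟩
    obtain ⟨s, t, hst⟩ := hf g
    exact ⟨s, -t, by rw [hst]; ext x; simp⟩
  obtain ⟨L, hL⟩ := main_two K A S₁ S₂ hS hyp
  obtain ⟨M, i1, i2, i3, i4, hM, hτ, hX⟩ := hinf L
  obtain ⟨P₁, P₀, l1, l2, l3, l4, f, π, f1, f0, p1, p0, hπ, hex, hsup, -, hB⟩ := hτ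
  obtain ⟨X, hXL, hMX⟩ := hL M hM
    ⟨P₁, P₀, l1, l2, l3, l4, f, π, f1, f0, p1, p0, hπ, hex, hsup, surj_of_pairing hB⟩
  exact hX X hXL hMX

end Pool.Agent.H4.TS.Old
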