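import Pool.Agent.H4.TS.Defs
import Pool.Agent.H4.TS.Old

/-!
The plain form of the theorem on algebras with at most two simple modules, from the bundled form.
-/

universe u v

namespace Pool.Agent.H4.TS

theorem iso_of_equiv {A : Type u} [Ring A] {P Q : Type u} [AddCommGroup P] [Module A P]
    [AddCommGroup Q] [Module A Q] (e : P ≃ₗ[A] Q) : Iso A P Q :=
  ⟨e, e.toLinearMap.isLinear, e.bijective⟩

theorem equiv_of_iso {A : Type u} [Ring A] {P Q : Type u} [AddCommGroup P] [Module A P]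
    [AddCommGroup Q] [Module A Q] (h : Iso A P Q) : Nonempty (P ≃ₗ[A] Q) := by
  obtain ⟨f, hf, hb⟩ := h
  exact ⟨LinearEquiv.ofBijective (hf.mk' f) hb⟩

theorem indec {A : Type u} [Ring A] {M : Type u} [AddCommGroup M] [Module A M]
    (h : Indecomposable A M) : Old.Indecomposable A M := by
  obtain ⟨⟨x, hx⟩, h2⟩ := h
  refine ⟨⟨x, 0, hx⟩, fun N N' hN => ?_⟩
  let e : M →ₗ[A] M := N.subtype ∘ₗ Submodule.projectionOnto N N' hN
  have he1 : ∀ y ∈ N, e y = y := by
    intro y hy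
    have := Submodule.projectionOnto_apply_left hN ⟨y, hy⟩
    show ((Submodule.projectionOnto N N' hN y : N) : M) = y
    rw [show y = ((⟨y, hy⟩ : N) : M) from rfl, this]
  have he0 : ∀ y ∈ N', e y = 0 := by
    intro y hy
    have := (Submodule.projectionOnto_apply_eq_zero_iff hN (x := y)).2 hy
    show ((Submodule.projectionOnto N N' hN y : N) : M) = 0
    rw [this]
    rfl
  have hmem : ∀ y, e y ∈ N := fun y => (Submodule.projectionOnto N N' hN y).2
  rcases h2 e e.isLinear (fun y => he1 _ (hmem y)) with h0 | h1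
  · left
    rw [eq_bot_iff]
    intro y hy
    rw [Submodule.mem_bot, ← he1 y hy]
    exact h0 y
  · right
    rw [eq_bot_iff]
    intro y hy
    rw [Submodule.mem_bot, ← h1 y]
    exact he0 y hy

theorem minimal {A : Type u} [Ring A] {P Q : Type u} [AddCommGroup P] [Module A P]
    [AddCommGroup Q] [Module A Q] {f : P →ₗ[A] Q} (h : Minimal A f) (N : Submodule A P)
    (hN : N ⊔ LinearMap.ker f = ⊤) : N = ⊤ := by
  refine h N fun x => ?_
  have hx : x ∈ N ⊔ LinearMap.ker f := by rw [hN]; exact Submodule.mem_top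
  obtain ⟨y, hy, z, hz, hyz⟩ := Submodule.mem_sup.1 hx
  refine ⟨y, hy, ?_⟩
  rw [← hyz, map_add, LinearMap.mem_ker.1 hz, add_zero]

open Classical in
theorem tauRigid {K : Type v} [Field K] {A : Type u} [Ring A] [Algebra K A] {M : Type u}
    [AddCommGroup M] [Module K M] [Module A M] [IsScalarTower K A M]
    (h : IsTauRigid A M K) : Old.IsTauRigid K A M := by
  obtain ⟨P, Q, i1, i2, i3, i4, f, g, ⟨⟨f1, p1⟩, ⟨f0, p0⟩, hf, hg, hs, hex, hmf, hmg⟩, hB⟩ := h
  refine ⟨P, Q, i1, i2, i3, i4, hf.mk' f, hg.mk' g, f1, f0, p1, p0, hs, ?_, ?_, ?_, ?_⟩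
  · ext y
    rw [LinearMap.mem_range, LinearMap.mem_ker]
    exact (hex y).symm
  · exact fun N hN => minimal (f := hg.mk' g) hmg N hN
  · exact fun N hN => minimal (f := hf.mk' f) hmf N hN
  · intro B h1 h2
    let C : M → (P → A) → K := fun m φ => if hφ : IsLinearMap A φ then B m (hφ.mk' φ) else 0
    have hC : ∀ m φ (hφ : IsLinearMap A φ), C m φ = B m (hφ.mk' φ) := fun m φ hφ => dif_pos hφ
    have hadd : ∀ φ ψ : P → A, IsLinearMap A φ → IsLinearMap A ψ →
        IsLinearMap A fun x => φ x + ψ x := fun φ ψ hφ hψ =>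
      (hφ.mk' φ + hψ.mk' ψ).isLinear
    have hsm : ∀ (c : K) (φ : P → A), IsLinearMap A φ → IsLinearMap A fun x => c • φ x := by
      intro c φ hφ
      refine ⟨fun x y => by rw [hφ.map_add, smul_add], fun a x => ?_⟩
      rw [hφ.map_smul, smul_comm]
    have hmu : ∀ (a : A) (φ : P → A), IsLinearMap A φ → IsLinearMap A fun x => φ x * a := by
      intro a φ hφ
      refine ⟨fun x y => by rw [hφ.map_add, add_mul], fun b x => ?_⟩
      rw [hφ.map_smul, smul_eq_mul, smul_eq_mul, mul_assoc]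
    have key := hB C ⟨fun m n φ hφ => ?_, fun m φ ψ hφ hψ => ?_, fun c m φ hφ => ?_,
      fun a m φ hφ => ?_⟩ (fun m ψ hψ => ?_)
    · apply LinearMap.ext
      intro m
      apply LinearMap.ext
      intro φ
      have := key m φ φ.isLinear
      rw [hC m φ φ.isLinear] at this
      exact this
    · rw [hC _ _ hφ, hC _ _ hφ, hC _ _ hφ, map_add, LinearMap.add_apply]
    · rw [hC _ _ hφ, hC _ _ hψ, hC _ _ (hadd φ ψ hφ hψ), ← map_add]
      rfl
    · rw [hC _ _ hφ, hC _ _ (hsm c φ hφ), ← smul_eq_mul, ← map_smul]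
      rfl
    · rw [hC _ _ hφ, hC _ _ (hmu a φ hφ), h1]
      congr 1
    · have hψf : IsLinearMap A fun x => ψ (f x) := ((hψ.mk' ψ) ∘ₗ (hf.mk' f)).isLinear
      rw [hC _ _ hψf]
      exact h2 m (hψ.mk' ψ)

theorem main (K : Type v) [Field K] [Infinite K] (A : Type u) [Ring A] [Algebra K A]
    [FiniteDimensional K A] (S₁ S₂ : Type u) [AddCommGroup S₁] [Module A S₁]
    [AddCommGroup S₂] [Module A S₂] [IsSimpleModule A S₁] [IsSimpleModule A S₂]
    (hS : ∀ (S : Type u) [AddCommGroup S] [Module A S] [IsSimpleModule A S],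
      Iso A S S₁ ∨ Iso A S S₂)
    (hinf : ∀ (n : ℕ) (N : Fin n → Type u) [∀ i, AddCommGroup (N i)] [∀ i, Module A (N i)],
      ∃ (M : Type u) (_ : AddCommGroup M) (_ : Module A M), Indecomposable A M ∧
        IsTauRigid A M K ∧ ∀ i, ¬ Iso A M (N i)) :
    ∃ (P Q : Type u) (_ : AddCommGroup P) (_ : Module A P) (_ : AddCommGroup Q)
      (_ : Module A Q), Proj A P ∧ Proj A Q ∧ ∀ f : P → Q, IsLinearMap A f → ¬ Rigid A f := by
  obtain ⟨P, Q, i1, i2, i3, i4, h1, h2, h3, h4, hf⟩ := Old.result K A S₁ S₂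
    (fun S _ _ _ => by
      rcases hS S with h | h
      · exact Or.inl (equiv_of_iso h)
      · exact Or.inr (equiv_of_iso h))
    (fun L => by
      obtain ⟨M, j1, j2, hM, ht, hX⟩ := hinf L.length (fun i => (L.get i : ModuleCat.{u} A))
      let _ : Module K M := Module.compHom M (algebraMap K A)
      have : IsScalarTower K A M := ⟨fun c a m => by
        show (c • a) • m = algebraMap K A c • (a • m)
        rw [Algebra.smul_def, mul_smul]⟩
      refine ⟨M, j1, inferInstance, j2, inferInstance, indec hM, tauRigid ht, ?_⟩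
      intro X hXL ⟨e⟩
      obtain ⟨i, rfl⟩ := List.get_of_mem hXL
      exact hX i (iso_of_equiv e))
  refine ⟨P, Q, i1, i2, i3, i4, ⟨h1, h2⟩, ⟨h3, h4⟩, fun f hlin hr => hf (hlin.mk' f) ?_⟩
  intro h
  obtain ⟨s, t, hs, ht, hst⟩ := hr h h.isLinear
  refine ⟨hs.mk' s, ht.mk' t, ?_⟩
  ext x
  exact hst x

end Pool.Agent.H4.TS
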